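import Mathlib

/-! Radical extensions are unramified outside of `p` and the radicand. -/

set_option autoImplicit false
set_option linter.unusedSectionVars false

namespace Pool.Agent.Q5.RF

open NumberField Polynomial

section
variable {L Y : Type} [Field L] [NumberField L] [Field Y] [NumberField Y] [Algebra L Y]

theorem minpoly_rad {p : ℕ} (hp : p.Prime) {c : 𝓞 L} {γ : 𝓞 Y}
    (hγ : γ ^ p = algebraMap (𝓞 L) (𝓞 Y) c) (hgen : Algebra.adjoin L {(γ : Y)} = ⊤)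
    (hdeg : Module.finrank L Y = p) : minpoly (𝓞 L) γ = X ^ p - C c := by
  have hint : IsIntegral (𝓞 L) γ := Algebra.IsIntegral.isIntegral γ
  have h1 : minpoly (𝓞 L) γ ∣ X ^ p - C c := by
    refine minpoly.isIntegrallyClosed_dvd hint ?_
    rw [map_sub, map_pow, aeval_X, aeval_C, hγ, sub_self]
  have hfd : FiniteDimensional L Y := by
    have : IsScalarTower ℚ L Y := inferInstance
    exact FiniteDimensional.right ℚ L Y
  have h2 : (minpoly (𝓞 L) γ).natDegree = p := by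
    have h3 : minpoly L (γ : Y) = (minpoly (𝓞 L) γ).map (algebraMap (𝓞 L) L) :=
      minpoly.isIntegrallyClosed_eq_field_fractions L Y hint
    have h4 : IntermediateField.adjoin L {(γ : Y)} = ⊤ := by
      rw [eq_top_iff]
      intro y _
      have h5 : y ∈ Algebra.adjoin L {(γ : Y)} := by
        rw [hgen]
        exact Algebra.mem_top
      exact IntermediateField.algebra_adjoin_le_adjoin L {(γ : Y)} h5
    have h5 : (minpoly L (γ : Y)).natDegree = p := by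
      rw [← IntermediateField.adjoin.finrank (Algebra.IsIntegral.isIntegral (γ : Y)), h4,
        IntermediateField.finrank_top', hdeg]
    rw [h3, (minpoly.monic hint).natDegree_map] at h5
    exact h5
  exact (eq_of_monic_of_dvd_of_natDegree_le (minpoly.monic hint) (monic_X_pow_sub_C c hp.ne_zero)
    h1 (by rw [natDegree_X_pow_sub_C, h2])).symm

theorem unram {p : ℕ} (hp : p.Prime) {c : 𝓞 L} {γ : 𝓞 Y}
    (hγ : γ ^ p = algebraMap (𝓞 L) (𝓞 Y) c) (hgen : Algebra.adjoin L {(γ : Y)} = ⊤)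
    (hdeg : Module.finrank L Y = p) {P : Ideal (𝓞 L)} (hPm : P.IsMaximal) (hP0 : P ≠ ⊥)
    {Q : Ideal (𝓞 Y)} (hQp : Q.IsPrime) (hQ : Q.comap (algebraMap (𝓞 L) (𝓞 Y)) = P)
    (hpP : (p : 𝓞 L) ∉ P) (hcP : c ∉ P) : ¬ Q ^ 2 ∣ P.map (algebraMap (𝓞 L) (𝓞 Y)) := by
  intro hdvd
  have h1 : Q ^ (2 - 1) ∣ differentIdeal (𝓞 L) (𝓞 Y) :=
    pow_sub_one_dvd_differentIdeal_aux (𝓞 L) L Y Q two_ne_zero hP0 hdvd
  rw [show 2 - 1 = 1 from rfl, pow_one, Ideal.dvd_iff_le] at h1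
  have h2 := h1 (aeval_derivative_mem_differentIdeal (𝓞 L) L Y γ hgen)
  rw [minpoly_rad hp hγ hgen hdeg, derivative_sub, derivative_X_pow, derivative_C, sub_zero,
    map_mul, map_pow, aeval_X, map_natCast] at h2
  rcases hQp.mem_or_mem h2 with h3 | h3
  · apply hpP
    rw [← hQ, Ideal.mem_comap, map_natCast]
    rwa [map_natCast] at h3
  · apply hcP
    rw [← hQ, Ideal.mem_comap, ← hγ]
    exact Ideal.pow_mem_of_mem _ (hQp.mem_of_pow_mem _ h3) _ hp.pos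

theorem unif_up {p : ℕ} (hp : p.Prime) {c : 𝓞 L} {γ : 𝓞 Y}
    (hγ : γ ^ p = algebraMap (𝓞 L) (𝓞 Y) c) (hgen : Algebra.adjoin L {(γ : Y)} = ⊤)
    (hdeg : Module.finrank L Y = p) {P : Ideal (𝓞 L)} (hPm : P.IsMaximal) (hP0 : P ≠ ⊥)
    {Q : Ideal (𝓞 Y)} (hQp : Q.IsPrime) (hQ : Q.comap (algebraMap (𝓞 L) (𝓞 Y)) = P)
    (hpP : (p : 𝓞 L) ∉ P) (hcP : c ∉ P) {u : 𝓞 L} (hu : u ∈ P) (hu2 : u ∉ P ^ 2) :
    algebraMap (𝓞 L) (𝓞 Y) u ∉ Q ^ 2 := by
  intro h
  apply unram hp hγ hgen hdeg hPm hP0 hQp hQ hpP hcP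
  have hQ0 : Q ≠ ⊥ := by
    rintro rfl
    apply hP0
    rw [← hQ, Ideal.comap_bot_of_injective]
    exact FaithfulSMul.algebraMap_injective (𝓞 L) (𝓞 Y)
  obtain ⟨I, hI⟩ : P ∣ Ideal.span {u} := by
    rw [Ideal.dvd_span_singleton]
    exact hu
  have hIP : ¬ I ≤ P := by
    intro hle
    apply hu2
    have h1 : u ∈ P * I := by
      rw [← hI]
      exact Ideal.mem_span_singleton_self u
    rw [sq]
    exact Ideal.mul_mono_right hle h1
  have h2 : Q ^ 2 ∣ P.map (algebraMap (𝓞 L) (𝓞 Y)) * I.map (algebraMap (𝓞 L) (𝓞 Y)) := by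
    rw [← Ideal.map_mul, ← hI, Ideal.map_span, Set.image_singleton, Ideal.dvd_span_singleton]
    exact h
  refine (Ideal.prime_of_isPrime hQ0 hQp).pow_dvd_of_dvd_mul_right 2 ?_ h2
  intro h3
  rw [Ideal.dvd_iff_le, Ideal.map_le_iff_le_comap, hQ] at h3
  exact hIP h3

end

end Pool.Agent.Q5.RF
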